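import Mathlib
import Pool.Agent.V8H71.OD.Main

/-!
# Numbers of block type have no isotropic relations
-/

set_option autoImplicit false
set_option linter.unusedSectionVars false

namespace Pool.Agent.V8H71.SS

open NumberField Module Polynomial Finset Pool.Agent.H977R3.CM Pool.Agent.Y137.MV
  Pool.Agent.V8H71.OD

section

variable {p : ℕ} [Fact p.Prime] {J : Type} [Fintype J]
  {K : J → Type} [∀ j, Field (K j)] [∀ j, NumberField (K j)] [∀ j, IsCMField (K j)]
  {π : ∀ j, K j}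

/-- Powers have proportional slope functions. -/
theorem slope_pow {K : Type} [Field K] [NumberField K] [IsCMField K] {π : K}
    {u : (K →+* PadicAlgCl p) → ℤ} {a e : ℕ} (he : 0 < e) (h : HasSlopeFunction a π u) :
    HasSlopeFunction (a * e) (π ^ e) u := by
  obtain ⟨hw, κ, hκ, hs⟩ := h
  refine ⟨?_, κ * e, ?_, fun τ => ?_⟩
  · rw [map_pow, ← mul_pow, hw, ← pow_mul]
  · exact mul_ne_zero hκ (Nat.cast_ne_zero.2 he.ne')
  · rw [map_pow, norm_pow, Real.logb_pow]
    have h1 := hs τ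
    push_cast
    have h2 : 2 * (-((e : ℝ) * Real.logb p ‖τ π‖)) - (a : ℝ) * e =
        e * (2 * (- Real.logb p ‖τ π‖) - a) := by ring
    rw [h2, h1]
    ring

/-- The angle rank is maximal, for suitable powers. -/
theorem angle_pow (hind : PairwiseIndep K) {u : ∀ j, (K j →+* PadicAlgCl p) → ℤ}
    {f : J → ℕ} (hf : ∀ j, 0 < f j) {w : ℕ} (hu : ∀ j, HasSlopeFunction (f j * w) (π j) (u j))
    (hcond : ∀ j, BlockCondition (u j)) :
    ∃ (M : ℕ) (e : J → ℕ), 0 < M ∧ (∀ j, 0 < e j ∧ f j * e j = M) ∧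
      MaximalAngleRank (p ^ (M * w)) (fun j => π j ^ e j) := by
  classical
  refine ⟨∏ j, f j, fun j => ∏ i ∈ univ.erase j, f i, Finset.prod_pos fun j _ => hf j,
    fun j => ⟨Finset.prod_pos fun i _ => hf i, Finset.mul_prod_erase univ f (mem_univ j)⟩, ?_⟩
  apply angle_of_block hind (u := u) _ hcond
  intro j
  have h1 := slope_pow (e := ∏ i ∈ univ.erase j, f i) (Finset.prod_pos fun i _ => hf i) (hu j)
  have h2 : f j * w * ∏ i ∈ univ.erase j, f i = (∏ i, f i) * w := by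
    rw [← Finset.mul_prod_erase univ f (mem_univ j)]
    ring
  rw [h2] at h1
  exact h1

theorem ne_zero_of_slope {K : Type} [Field K] [NumberField K] [IsCMField K] {π : K}
    {u : (K →+* PadicAlgCl p) → ℤ} {a : ℕ} (h : HasSlopeFunction a π u) : π ≠ 0 := by
  intro h0
  have h1 := h.weil
  rw [h0, zero_mul] at h1
  exact pow_ne_zero a (Nat.cast_ne_zero.2 (Fact.out : p.Prime).ne_zero) h1.symm

/-- Only the trivial relations. -/
theorem rel_symm (hind : PairwiseIndep K) {u : ∀ j, (K j →+* PadicAlgCl p) → ℤ}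
    {f : J → ℕ} (hf : ∀ j, 0 < f j) {w : ℕ} (hu : ∀ j, HasSlopeFunction (f j * w) (π j) (u j))
    (hcond : ∀ j, BlockCondition (u j)) (n : (Σ j, (K j →+* ℂ)) → ℤ) (N : ℕ) (hN : 0 < N)
    (r : ℤ) (h : (∏ y : Σ j, (K j →+* ℂ), (y.2 (π y.1)) ^ n y) ^ N = ((p : ℂ) ^ w) ^ r)
    (j : J) (φ : K j →+* ℂ) : n ⟨j, φ⟩ = n ⟨j, ComplexEmbedding.conjugate φ⟩ := by
  classical
  obtain ⟨M, e, hM, he, hang⟩ := angle_pow hind hf hu hcond
  have h1 : ∏ y : Σ j, (K j →+* ℂ), (y.2 (π y.1 ^ e y.1)) ^ ((f y.1 : ℤ) * n y * N) =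
      ((p ^ (M * w) : ℕ) : ℂ) ^ r := by
    have h2 : ∀ y : Σ j, (K j →+* ℂ), (y.2 (π y.1 ^ e y.1)) ^ ((f y.1 : ℤ) * n y * N) =
        ((y.2 (π y.1)) ^ n y) ^ (N * M) := by
      intro y
      rw [map_pow, ← zpow_natCast, ← zpow_mul, ← zpow_natCast ((y.2 (π y.1)) ^ n y), ← zpow_mul]
      congr 1
      push_cast
      rw [← (he y.1).2]
      push_cast
      ring
    rw [Finset.prod_congr rfl fun y _ => h2 y, Finset.prod_pow, pow_mul, h]
    rw [← zpow_natCast, ← zpow_mul, ← zpow_natCast, ← zpow_mul]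
    push_cast
    rw [← zpow_natCast, ← zpow_mul]
    congr 1
    push_cast
    ring
  have h3 := hang r _ h1 j φ
  simp only at h3
  have h4 : (0 : ℤ) < f j := by exact_mod_cast hf j
  have h5 : (0 : ℤ) < N := by exact_mod_cast hN
  have h6 := mul_right_cancel₀ h5.ne' h3
  exact mul_left_cancel₀ h4.ne' h6

/-- The numbers generate their fields. -/
theorem gen_of_block (hind : PairwiseIndep K) {u : ∀ j, (K j →+* PadicAlgCl p) → ℤ}
    {f : J → ℕ} (hf : ∀ j, 0 < f j) {w : ℕ} (hu : ∀ j, HasSlopeFunction (f j * w) (π j) (u j))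
    (hcond : ∀ j, BlockCondition (u j)) (j : J) (φ ψ : K j →+* ℂ) (h : φ (π j) = ψ (π j)) :
    φ = ψ := by
  classical
  obtain ⟨M, e, hM, he, hang⟩ := angle_pow hind hf hu hcond
  have h1 := gen_of_angle hang (fun i => pow_ne_zero _ (ne_zero_of_slope (hu i))) j
  rw [Field.primitive_element_iff_algHom_eq_of_eval ℚ ℂ
    (fun x => IsAlgClosed.splits _) _ (RingHom.toRatAlgHom φ)] at h1
  have h2 := h1 (RingHom.toRatAlgHom ψ) (by
    change φ (π j ^ e j) = ψ (π j ^ e j)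
    rw [map_pow, map_pow, h])
  ext x
  exact congrArg (fun g : K j →ₐ[ℚ] ℂ => g x) h2

/-- Different embeddings of different fields give different numbers. -/
theorem inj_of_block (hind : PairwiseIndep K) {u : ∀ j, (K j →+* PadicAlgCl p) → ℤ}
    {f : J → ℕ} (hf : ∀ j, 0 < f j) {w : ℕ} (hu : ∀ j, HasSlopeFunction (f j * w) (π j) (u j))
    (hcond : ∀ j, BlockCondition (u j)) :
    Function.Injective (fun y : Σ j, (K j →+* ℂ) => y.2 (π y.1)) := by
  rintro ⟨j, φ⟩ ⟨j', ψ⟩ h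
  simp only at h
  by_cases hj : j = j'
  · subst hj
    rw [gen_of_block hind hf hu hcond j φ ψ h]
  · exfalso
    obtain ⟨σ, h1, h2⟩ := hind j j' hj φ ψ
    have h3 : (starRingEnd ℂ) (ψ (π j')) = ψ (π j') := by
      rw [← h2, ← h, h1]
    have h4 := gen_of_block hind hf hu hcond j' (ComplexEmbedding.conjugate ψ) ψ h3
    have h5 : IsTotallyComplex (K j') := inferInstance
    exact (InfinitePlace.isComplex_mk_iff.1 (h5.isComplex (InfinitePlace.mk ψ))) h4

/-- The numbers are not real. -/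
theorem im_ne_zero (hind : PairwiseIndep K) {u : ∀ j, (K j →+* PadicAlgCl p) → ℤ}
    {f : J → ℕ} (hf : ∀ j, 0 < f j) {w : ℕ} (hu : ∀ j, HasSlopeFunction (f j * w) (π j) (u j))
    (hcond : ∀ j, BlockCondition (u j)) (j : J) (φ : K j →+* ℂ) : (φ (π j)).im ≠ 0 := by
  intro h
  have h3 : (starRingEnd ℂ) (φ (π j)) = φ (π j) := Complex.conj_eq_iff_im.2 h
  have h4 := gen_of_block hind hf hu hcond j (ComplexEmbedding.conjugate φ) φ h3
  have h5 : IsTotallyComplex (K j) := inferInstance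
  exact (InfinitePlace.isComplex_mk_iff.1 (h5.isComplex (InfinitePlace.mk φ))) h4

end

end Pool.Agent.V8H71.SS
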