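import Mathlib
import Pool.Agent.V8H71.SS.Rel

/-!
# The roots of the Frobenius polynomial at one place
-/

set_option autoImplicit false
set_option linter.unusedSectionVars false

namespace Pool.Agent.V8H71.SS

open NumberField Module Polynomial Finset

/-- The complex roots of the nonzero polynomial `R` are real and simple. -/
def RealSimple (R : ℚ[X]) : Prop :=
  R ≠ 0 ∧ (R.map (algebraMap ℚ ℂ)).roots.Nodup ∧ ∀ z ∈ (R.map (algebraMap ℚ ℂ)).roots, z.im = 0

section

variable {J : Type} [Fintype J] [DecidableEq J] {K : J → Type} [∀ j, Field (K j)]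
  [∀ j, NumberField (K j)] {π : ∀ j, K j}

theorem mem_roots_minpoly {K : Type} [Field K] [NumberField K] (x : K) (z : ℂ) :
    z ∈ ((minpoly ℚ x).map (algebraMap ℚ ℂ)).roots ↔ ∃ φ : K →+* ℂ, φ x = z := by
  have h1 := NumberField.Embeddings.range_eval_eq_rootSet_minpoly K ℂ x
  have h2 : z ∈ (minpoly ℚ x).rootSet ℂ ↔ z ∈ ((minpoly ℚ x).map (algebraMap ℚ ℂ)).roots := by
    classical
    rw [rootSet_def, Finset.mem_coe, Multiset.mem_toFinset, aroots_def]
  rw [← h2, ← h1]
  rfl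

theorem count_minpoly_le {K : Type} [Field K] [NumberField K] (x : K) (z : ℂ) :
    ((minpoly ℚ x).map (algebraMap ℚ ℂ)).roots.count z ≤ 1 := by
  classical
  apply Multiset.nodup_iff_count_le_one.1
  apply nodup_roots
  exact Separable.map (minpoly.irreducible (Algebra.IsIntegral.isIntegral x)).separable

theorem minpoly_ne {K : Type} [Field K] [NumberField K] (x : K) : minpoly ℚ x ≠ 0 :=
  minpoly.ne_zero (Algebra.IsIntegral.isIntegral x)

/-- The roots of the product. -/
theorem count_roots {R : ℚ[X]} (hR : R ≠ 0) (s : Finset J) (z : ℂ) :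
    ((R * ∏ j ∈ s, minpoly ℚ (π j)).map (algebraMap ℚ ℂ)).roots.count z =
      (R.map (algebraMap ℚ ℂ)).roots.count z +
        ∑ j ∈ s, ((minpoly ℚ (π j)).map (algebraMap ℚ ℂ)).roots.count z := by
  classical
  have h0 : R * ∏ j ∈ s, minpoly ℚ (π j) ≠ 0 :=
    mul_ne_zero hR (Finset.prod_ne_zero_iff.2 fun j _ => minpoly_ne (π j))
  have h1 : ∀ Q : ℚ[X], Q ≠ 0 → Q.map (algebraMap ℚ ℂ) ≠ 0 := fun Q hQ =>
    (Polynomial.map_ne_zero_iff (algebraMap ℚ ℂ).injective).2 hQ
  rw [Polynomial.map_mul, roots_mul (by rw [← Polynomial.map_mul]; exact h1 _ h0),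
    Multiset.count_add, Polynomial.map_prod, roots_prod _ _ (by
      rw [← Polynomial.map_prod]
      exact h1 _ (Finset.prod_ne_zero_iff.2 fun j _ => minpoly_ne (π j)))]
  congr 1
  rw [Multiset.count_bind]
  rfl

variable {R : ℚ[X]} {s : Finset J}

theorem place (hR : RealSimple R)
    (hinj : Function.Injective (fun y : Σ j, (K j →+* ℂ) => y.2 (π y.1)))
    (him : ∀ j ∈ s, ∀ φ : K j →+* ℂ, (φ (π j)).im ≠ 0) {c : ℂ} (hc : c ≠ 0)
    (hweil : ∀ j ∈ s, ∀ φ : K j →+* ℂ, φ (π j) * ComplexEmbedding.conjugate φ (π j) = c)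
    (hreal : ∀ z ∈ ((R * ∏ j ∈ s, minpoly ℚ (π j)).map (algebraMap ℚ ℂ)).roots, z.im = 0 →
      z * z = c)
    {A : Multiset ℂ}
    (hA : A + A.map (fun a => c / a) ≤
      ((R * ∏ j ∈ s, minpoly ℚ (π j)).map (algebraMap ℚ ℂ)).roots) :
    (∀ z ∈ A, ∃ j ∈ s, ∃ φ : K j →+* ℂ, φ (π j) = z) ∧
      ∀ j ∈ s, ∀ φ : K j →+* ℂ, A.count (φ (π j)) +
        A.count (ComplexEmbedding.conjugate φ (π j)) ≤ 1 := by
  classical
  set Z := ((R * ∏ j ∈ s, minpoly ℚ (π j)).map (algebraMap ℚ ℂ)).roots with hZ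
  have hcount : ∀ z w : ℂ, c / w = z → A.count z + A.count w ≤ Z.count z := by
    intro z w hzw
    refine le_trans ?_ (Multiset.count_le_of_le z hA)
    rw [Multiset.count_add]
    refine Nat.add_le_add_left ?_ _
    have h1 : (A.map (fun a => c / a)).count z = (A.filter (fun a => z = c / a)).card :=
      Multiset.count_map _ _ _
    rw [h1, Multiset.count_eq_card_filter_eq]
    apply Multiset.card_le_card
    apply Multiset.monotone_filter_right
    intro a ha
    rw [← ha, hzw]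
  have hmem : ∀ z ∈ A, z ∈ Z := fun z hz => Multiset.mem_of_le hA (Multiset.mem_add.2 (Or.inl hz))
  have hroot : ∀ z ∈ Z, z.im = 0 ∨ ∃ j ∈ s, ∃ φ : K j →+* ℂ, φ (π j) = z := by
    intro z hz
    have h1 := Multiset.count_pos.2 hz
    rw [hZ, count_roots hR.1] at h1
    by_cases h2 : z ∈ (R.map (algebraMap ℚ ℂ)).roots
    · exact Or.inl (hR.2.2 z h2)
    · rw [Multiset.count_eq_zero_of_notMem h2, zero_add] at h1
      obtain ⟨j, hj, h3⟩ := Finset.exists_ne_zero_of_sum_ne_zero h1.ne'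
      have h4 : z ∈ ((minpoly ℚ (π j)).map (algebraMap ℚ ℂ)).roots := by
        by_contra h5
        exact h3 (Multiset.count_eq_zero_of_notMem h5)
      obtain ⟨φ, hφ⟩ := (mem_roots_minpoly _ _).1 h4
      exact Or.inr ⟨j, hj, φ, hφ⟩
  have hreal1 : ∀ z, z.im = 0 → Z.count z ≤ 1 := by
    intro z hz
    rw [hZ, count_roots hR.1]
    have h1 : ∑ j ∈ s, ((minpoly ℚ (π j)).map (algebraMap ℚ ℂ)).roots.count z = 0 := by
      apply Finset.sum_eq_zero
      intro j hj
      apply Multiset.count_eq_zero_of_notMem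
      intro h2
      obtain ⟨φ, hφ⟩ := (mem_roots_minpoly _ _).1 h2
      exact him j hj φ (by rw [hφ, hz])
    rw [h1, add_zero]
    exact Multiset.nodup_iff_count_le_one.1 hR.2.1 z
  have hpi1 : ∀ j ∈ s, ∀ φ : K j →+* ℂ, Z.count (φ (π j)) ≤ 1 := by
    intro j hj φ
    rw [hZ, count_roots hR.1]
    have h0 : (R.map (algebraMap ℚ ℂ)).roots.count (φ (π j)) = 0 := by
      apply Multiset.count_eq_zero_of_notMem
      intro h2
      exact him j hj φ (hR.2.2 _ h2)
    rw [h0, zero_add, Finset.sum_eq_single_of_mem j hj]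
    · exact count_minpoly_le _ _
    · intro j' _ hne
      apply Multiset.count_eq_zero_of_notMem
      intro h2
      obtain ⟨ψ, hψ⟩ := (mem_roots_minpoly _ _).1 h2
      have h3 := @hinj ⟨j', ψ⟩ ⟨j, φ⟩ hψ
      exact hne (congrArg Sigma.fst h3)
  refine ⟨fun z hz => ?_, fun j hj φ => ?_⟩
  · rcases hroot z (hmem z hz) with h1 | h1
    · exfalso
      have h2 := hreal z (hmem z hz) h1
      have hz0 : z ≠ 0 := by
        rintro rfl
        rw [zero_mul] at h2
        exact hc h2.symm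
      have h3 := hcount z z (by rw [← h2]; field_simp)
      have h4 := Multiset.count_pos.2 hz
      have h5 := hreal1 z h1
      omega
    · exact h1
  · refine le_trans (hcount _ _ ?_) (hpi1 j hj φ)
    rw [← hweil j hj φ]
    have h1 : ComplexEmbedding.conjugate φ (π j) ≠ 0 := by
      intro h
      apply hc
      rw [← hweil j hj φ, h, mul_zero]
    field_simp

/-- The product of the elements. -/
theorem prod_place (hinj : Function.Injective (fun y : Σ j, (K j →+* ℂ) => y.2 (π y.1)))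
    {A : Multiset ℂ} (h : ∀ z ∈ A, ∃ j ∈ s, ∃ φ : K j →+* ℂ, φ (π j) = z) :
    A.prod = ∏ j ∈ s, ∏ φ : K j →+* ℂ, φ (π j) ^ A.count (φ (π j)) := by
  classical
  rw [Finset.prod_sigma']
  rw [← Finset.prod_image (s := s.sigma fun j => (univ : Finset (K j →+* ℂ)))
    (g := fun y : Σ j, (K j →+* ℂ) => y.2 (π y.1)) (f := fun z => z ^ A.count z)
    (fun y _ y' _ hyy => hinj hyy)]
  rw [Finset.prod_multiset_count]
  refine Finset.prod_subset (fun z hz => ?_) (fun z _ hz => ?_)
  · obtain ⟨j, hj, φ, hφ⟩ := h z (Multiset.mem_toFinset.1 hz)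
    rw [Finset.mem_image]
    exact ⟨⟨j, φ⟩, by simp [hj], hφ⟩
  · rw [Multiset.mem_toFinset] at hz
    rw [Multiset.count_eq_zero_of_notMem hz, pow_zero]

end

end Pool.Agent.V8H71.SS
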