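import Mathlib
import Pool.Agent.V8H71.SS.Place
import Pool.Agent.Results.MP_8f1292_ag.RelationFreeFrobenius

/-!
# No isotropic relations at a prime of block type
-/

set_option autoImplicit false
set_option linter.unusedSectionVars false

namespace Pool.Agent.V8H71.SS

open NumberField IsDedekindDomain Module Polynomial Finset Pool.Agent.H977R3.CM
  Pool.Agent.Y137.MV Pool.Agent.V8H71.OD
  Pool.Agent.Results.MP_8f1292_ag.RelationFreeFrobenius

variable {F : Type} [Field F] [NumberField F]

/-- The Frobenius polynomials `P v`, of weight `w`, at the places `v` of `F` above the prime number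
`p` are of block type: there are finitely many pairwise independent CM fields `K j`, for each of
them a place `pl j` and a number `π j` such that, if the residue field of `pl j` has `p ^ f`
elements, `π j` has the absolute value `p ^ (f w / 2)` and a slope function `u j` which satisfies
the block condition; and for every place `v` above `p` the polynomial `P v` is the product of the
minimal polynomials of the numbers `π j` with `pl j = v` and of a polynomial with simple real
roots. -/
def OfBlockType (P : HeightOneSpectrum (𝓞 F) → ℚ[X]) (w p : ℕ) [Fact p.Prime] : Prop :=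
  ∃ (J : Type) (_ : Fintype J) (_ : DecidableEq (HeightOneSpectrum (𝓞 F))) (K : J → Type)
    (_ : ∀ j, Field (K j)) (_ : ∀ j, NumberField (K j)) (_ : ∀ j, IsCMField (K j))
    (pl : J → HeightOneSpectrum (𝓞 F)) (π : ∀ j, K j) (u : ∀ j, (K j →+* PadicAlgCl p) → ℤ),
    PairwiseIndep K ∧ (∀ j, BlockCondition (u j)) ∧
    (∀ j, ∃ f : ℕ, q (pl j) = p ^ f ∧ HasSlopeFunction (f * w) (π j) (u j)) ∧
    ∀ v, Above v p → ∃ R : ℚ[X], RealSimple R ∧
      P v = R * ∏ j ∈ univ.filter (fun j => pl j = v), minpoly ℚ (π j)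

theorem q_ne (v : HeightOneSpectrum (𝓞 F)) : q v ≠ 0 := by
  rw [q, Ne, Ideal.absNorm_eq_zero_iff]
  exact v.ne_bot

theorem q_ne_one (v : HeightOneSpectrum (𝓞 F)) : q v ≠ 1 := by
  rw [q, Ne, Ideal.absNorm_eq_one_iff]
  exact v.isPrime.ne_top

theorem above_finite {p : ℕ} (hp : p ≠ 0) :
    {v : HeightOneSpectrum (𝓞 F) | Above v p}.Finite := by
  have h1 : Ideal.span {(p : 𝓞 F)} ≠ 0 := by
    rw [Ne, Ideal.zero_eq_bot, Ideal.span_singleton_eq_bot]
    exact_mod_cast hp
  refine (Ideal.finite_factors h1).subset fun v hv => ?_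
  change v.asIdeal ∣ Ideal.span {(p : 𝓞 F)}
  rw [Ideal.dvd_span_singleton]
  exact hv

theorem conj_mul {K : Type} [Field K] [NumberField K] [IsCMField K] {p a : ℕ} [Fact p.Prime] {π : K}
    {u : (K →+* PadicAlgCl p) → ℤ} (h : HasSlopeFunction a π u) (φ : K →+* ℂ) :
    φ (π) * ComplexEmbedding.conjugate φ π = (p : ℂ) ^ a := by
  have h1 : ComplexEmbedding.conjugate φ π = φ (IsCMField.complexConj K π) :=
    (IsCMField.complexEmbedding_complexConj K φ π).symm
  rw [h1, ← map_mul, h.weil, map_pow, map_natCast]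

theorem no_relation {p w k : ℕ} [Fact p.Prime] (hur : UnramifiedIn F p)
    {P : HeightOneSpectrum (𝓞 F) → ℚ[X]} (hP : OfBlockType P w p)
    (hpure : ∀ v, Above v p → ∀ a ∈ ((P v).map (algebraMap ℚ ℂ)).roots,
      ‖a‖ ^ 2 = (q v : ℝ) ^ w) (hk : 0 < k) :
    ¬ IsotropicRelation P (algebraMap ℚ ℂ) (w : ℤ) p k := by
  classical
  have hpp : p.Prime := Fact.out
  rintro ⟨A, ⟨hcard, N, hN, hprod⟩, hA⟩
  obtain ⟨J, _, hdec, K, _, _, _, pl, π, u, hind, hcond, hslope, hfac⟩ := hP
  choose f hq hu using hslope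
  have hdec' : hdec = fun a b => Classical.propDecidable (a = b) := Subsingleton.elim _ _
  subst hdec'
  have hf : ∀ j, 0 < f j := by
    intro j
    rcases Nat.eq_zero_or_pos (f j) with h | h
    · exact absurd (by rw [hq j, h, pow_zero]) (q_ne_one (pl j))
    · exact h
  have hinj := inj_of_block hind hf hu hcond
  have him := im_ne_zero hind hf hu hcond
  choose R hR hPv using hfac
  have hplace : ∀ v (hv : Above v p),
      (∀ z ∈ A v, ∃ j ∈ univ.filter (fun j => pl j = v), ∃ φ : K j →+* ℂ, φ (π j) = z) ∧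
      ∀ j ∈ univ.filter (fun j => pl j = v), ∀ φ : K j →+* ℂ, (A v).count (φ (π j)) +
        (A v).count (ComplexEmbedding.conjugate φ (π j)) ≤ 1 := by
    intro v hv
    have hq0 : ((q v : ℂ)) ^ w ≠ 0 := pow_ne_zero _ (Nat.cast_ne_zero.2 (q_ne v))
    refine place (c := (q v : ℂ) ^ w) (hR v hv) hinj (fun j _ φ => him j φ) hq0 ?_ ?_ ?_
    · intro j hj φ
      rw [conj_mul (hu j) φ, pow_mul]
      congr 1
      rw [Finset.mem_filter] at hj
      have h1 := hq j
      rw [hj.2] at h1
      rw [h1]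
      push_cast
      rfl
    · intro z hz hz0
      have h1 := hpure v hv z (by rw [hPv v hv]; exact hz)
      have h2 : z = (z.re : ℂ) := Complex.ext (by simp) (by simp [hz0])
      have h3 : ‖z‖ ^ 2 = z.re * z.re := by
        rw [h2, Complex.norm_real, Real.norm_eq_abs, sq_abs, Complex.ofReal_re]
        ring
      rw [h3] at h1
      rw [h2]
      exact_mod_cast h1
    · have h1 := hA v hv
      rw [← hPv v hv]
      simpa using h1
  -- the multiplicities
  let n : (Σ j, (K j →+* ℂ)) → ℤ := fun y =>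
    if Above (pl y.1) p then ((A (pl y.1)).count (y.2 (π y.1)) : ℤ) else 0
  have hfin := above_finite (F := F) hpp.ne_zero
  set S : Finset (HeightOneSpectrum (𝓞 F)) := hfin.toFinset with hS
  have hSmem : ∀ v, v ∈ S ↔ Above v p := fun v => by rw [hS, Set.Finite.mem_toFinset]; rfl
  have hfp : (∏ᶠ (v : HeightOneSpectrum (𝓞 F)) (_ : Above v p), (A v).prod) =
      ∏ v ∈ S, (A v).prod := by
    apply finprod_cond_eq_prod_of_cond_iff
    intro v _
    rw [hSmem]
  have hpr : ∏ v ∈ S, (A v).prod = ∏ y : Σ j, (K j →+* ℂ), (y.2 (π y.1)) ^ n y := by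
    have h1 : ∀ v ∈ S, (A v).prod = ∏ j ∈ univ.filter (fun j => pl j = v),
        ∏ φ : K j →+* ℂ, φ (π j) ^ n ⟨j, φ⟩ := by
      intro v hv
      have hv' := (hSmem v).1 hv
      rw [prod_place hinj (hplace v hv').1]
      refine Finset.prod_congr rfl fun j hj => Finset.prod_congr rfl fun φ _ => ?_
      rw [Finset.mem_filter] at hj
      have h2 : n ⟨j, φ⟩ = ((A v).count (φ (π j)) : ℤ) := by
        simp only [n]
        rw [hj.2, if_pos hv']
      rw [h2, zpow_natCast]
    rw [Finset.prod_congr rfl h1, Fintype.prod_sigma]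
    have h3 : ∀ j, ∏ φ : K j →+* ℂ, φ (π j) ^ n ⟨j, φ⟩ ≠ 1 → pl j ∈ S := by
      intro j hj
      by_contra h4
      apply hj
      apply Finset.prod_eq_one
      intro φ _
      have h5 : n ⟨j, φ⟩ = 0 := by
        simp only [n]
        rw [if_neg (fun h => h4 ((hSmem _).2 h))]
      rw [h5, zpow_zero]
    have h6 : ∏ j, ∏ φ : K j →+* ℂ, φ (π j) ^ n ⟨j, φ⟩ =
        ∏ j ∈ univ.filter (fun j => pl j ∈ S), ∏ φ : K j →+* ℂ, φ (π j) ^ n ⟨j, φ⟩ := by
      symm
      apply Finset.prod_subset (Finset.subset_univ _)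
      intro j _ hj
      by_contra h7
      exact hj (Finset.mem_filter.2 ⟨Finset.mem_univ _, h3 j h7⟩)
    rw [h6, ← Finset.prod_fiberwise_of_maps_to (s := univ.filter (fun j => pl j ∈ S)) (t := S)
      (g := pl) (fun j hj => (Finset.mem_filter.1 hj).2)
      (fun j => ∏ φ : K j →+* ℂ, φ (π j) ^ n ⟨j, φ⟩)]
    refine Finset.prod_congr rfl fun v hv => Finset.prod_congr ?_ fun _ _ => rfl
    ext j
    simp only [Finset.mem_filter, Finset.mem_univ, true_and]
    constructor
    · intro h7
      exact ⟨by rw [h7]; exact hv, h7⟩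
    · exact fun h7 => h7.2
  rw [hfp, hpr] at hprod
  have hsymm := rel_symm hind hf hu hcond n (2 * N) (by omega) ((k : ℤ) * finrank ℚ F * N) (by
    rw [hprod, ← zpow_natCast (p : ℂ) w, ← zpow_mul]
    congr 1
    ring)
  obtain ⟨f', hf', hsum⟩ := Pool.Agent.Y115.T.sum_deg hpp hur S hSmem
  have hSne : S.Nonempty := by
    by_contra h
    rw [Finset.not_nonempty_iff_eq_empty] at h
    rw [h, Finset.sum_empty] at hsum
    exact (finrank_pos (R := ℚ) (M := F)).ne hsum
  obtain ⟨v, hv⟩ := hSne
  have hv' := (hSmem v).1 hv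
  have hA0 : A v = 0 := by
    rw [Multiset.eq_zero_iff_forall_notMem]
    intro z hz
    obtain ⟨j, hj, φ, hφ⟩ := (hplace v hv').1 z hz
    have h1 := (hplace v hv').2 j hj φ
    have h2 := hsymm j φ
    rw [Finset.mem_filter] at hj
    simp only [n] at h2
    rw [hj.2, if_pos hv'] at h2
    have h3 := Multiset.count_pos.2 hz
    rw [← hφ] at h3
    omega
  have h4 := hcard v hv'
  rw [hA0, Multiset.card_zero] at h4
  omega

end Pool.Agent.V8H71.SS
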